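import Pool.Agent.H8.HS.Eq
import Pool.Graph.R_seed8.Y274.EQM

/-!
# Packing null sets of homogeneous spaces with compact stabilisers

A locally compact group `G` acts transitively on a Hausdorff space `X`, with an open orbit map and a compact stabiliser
(so `X = G / H` with `H` compact; the case `X = G`, `x₀ = 1` is the question Q1 of `MP_5eb27c_an`). The image of left Haar
measure under the orbit map is an invariant measure on `X`. Every Borel set of measure zero is countably equidecomposable,
with Borel pieces moved by elements of `G`, with a subset of any Borel set with nonempty interior, and two Borel sets with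
nonempty interior are countably equidecomposable if and only if they have the same measure.
-/

set_option autoImplicit false

open MeasureTheory MeasureTheory.Measure Set Filter Topology
open scoped Pointwise ENNReal NNReal

namespace Pool.Agent.Results.MP_5eb27c_an.HomogeneousSpaces

open Pool.Agent.H8.HS

section

variable {G X : Type*} [Group G] [TopologicalSpace G] [IsTopologicalGroup G]
  [LocallyCompactSpace G] [T2Space G] [MeasurableSpace G] [BorelSpace G]
  [TopologicalSpace X] [T2Space X] [MulAction G X] [ContinuousSMul G X] [MeasurableSpace X] [BorelSpace X]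

theorem orbit_meas (x₀ : X) : Measurable fun g : G => g • x₀ := (orbit_cont x₀).measurable

theorem map_pre (μ : Measure G) (x₀ : X) {A : Set X} (hA : MeasurableSet A) :
    μ.map (fun g : G => g • x₀) A = μ (pre x₀ A) := Measure.map_apply (orbit_meas x₀) hA

theorem invariant (μ : Measure G) [IsHaarMeasure μ] (x₀ : X) :
    SMulInvariantMeasure G X (μ.map fun g : G => g • x₀) := by
  refine ⟨fun c s hs => ?_⟩
  have hm : Measurable fun x : X => c • x := (continuous_const_smul c).measurable
  rw [map_pre μ x₀ (hm hs), map_pre μ x₀ hs]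
  have h1 : (pre x₀ ((fun x : X => c • x) ⁻¹' s) : Set G) = (fun g : G => c * g) ⁻¹' pre x₀ s := by
    ext a
    rw [mem_pre, mem_preimage, mem_preimage, mem_pre, mul_smul]
  rw [h1, measure_preimage_mul]

theorem locCompact {x₀ : X} (hs : ∀ x : X, ∃ g : G, g • x₀ = x) (ho : IsOpenMap fun g : G => g • x₀) :
    LocallyCompactSpace X := by
  have : WeaklyLocallyCompactSpace X := by
    refine ⟨fun x => ?_⟩
    obtain ⟨g, hg⟩ := hs x
    obtain ⟨T, hT, hTg⟩ := exists_compact_mem_nhds g
    refine ⟨(fun g : G => g • x₀) '' T, hT.image (orbit_cont x₀), ?_⟩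
    rw [← hg]
    exact ho.image_mem_nhds hTg
  infer_instance

theorem good (μ : Measure G) [IsHaarMeasure μ] [Regular μ] {x₀ : X}
    (hs : ∀ x : X, ∃ g : G, g • x₀ = x) (ho : IsOpenMap fun g : G => g • x₀)
    (hst : IsCompact {h : G | h • x₀ = x₀}) : Good G (μ.map fun g : G => g • x₀) where
  meet := by
    intro A B hA hB hA0 hB0 hAf hBf
    have hAm : MeasurableSet (pre x₀ A : Set G) := orbit_meas x₀ hA
    have hBm : MeasurableSet (pre x₀ B : Set G) := orbit_meas x₀ hB
    rw [map_pre μ x₀ hA] at hA0 hAf
    rw [map_pre μ x₀ hB] at hB0 hBf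
    obtain ⟨g, hg⟩ := Pool.Agent.Y274.EQM.meet μ hAm hBm hA0 hB0 hAf hBf
    refine ⟨g, ?_⟩
    rw [map_pre μ x₀ (mv_meas hA hB)]
    refine hg.trans_le (measure_mono ?_)
    rintro a ⟨ha, hga⟩
    refine ⟨ha, ?_⟩
    rw [mem_pre, mul_smul] at hga
    exact hga
  pack := by
    intro E U hEm hE hUo hUne
    rw [map_pre μ x₀ hEm] at hE
    exact pack_null μ hs ho hst hEm hE hUo hUne
  seq := by
    intro E U hE hEne hUo hUne
    exact exists_open_seq μ hs (preimage_null_of_map_null (orbit_meas x₀).aemeasurable hE) hEne hUo hUne

theorem finCompact (μ : Measure G) [IsHaarMeasure μ] {x₀ : X}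
    (hs : ∀ x : X, ∃ g : G, g • x₀ = x) (ho : IsOpenMap fun g : G => g • x₀)
    (hst : IsCompact {h : G | h • x₀ = x₀}) : IsFiniteMeasureOnCompacts (μ.map fun g : G => g • x₀) := by
  refine ⟨fun K hK => ?_⟩
  rw [map_pre μ x₀ hK.measurableSet]
  exact (pre_compact hs ho hst hK).measure_lt_top

theorem outer (μ : Measure G) [IsHaarMeasure μ] [OuterRegular μ] {x₀ : X}
    (hs : ∀ x : X, ∃ g : G, g • x₀ = x) (ho : IsOpenMap fun g : G => g • x₀)
    (hst : IsCompact {h : G | h • x₀ = x₀}) : OuterRegular (μ.map fun g : G => g • x₀) := by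
  refine ⟨fun A hA r hr => ?_⟩
  rw [map_pre μ x₀ hA] at hr
  obtain ⟨V', hAV', hVo', hVr⟩ := (pre x₀ A : Set G).exists_isOpen_lt_of_lt r hr
  obtain ⟨V, hVdef⟩ : ∃ V : Set G, V = {x : G | ∀ h ∈ {h : G | h • x₀ = x₀}, x * h ∈ V'} := ⟨_, rfl⟩
  have hVo : IsOpen V := by rw [hVdef]; exact sat_open hst hVo'
  have hVV' : V ⊆ V' := by
    intro x hx
    rw [hVdef] at hx
    have := hx 1 (by simp)
    rwa [mul_one] at this
  have hAV : (pre x₀ A : Set G) ⊆ V := by
    intro x hx
    rw [hVdef]
    intro h hh
    exact hAV' (pre_sat hx hh)
  have hVH : ∀ x ∈ V, ∀ h : G, h • x₀ = x₀ → x * h ∈ V := by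
    intro x hx h hh
    rw [hVdef] at hx ⊢
    intro k hk
    rw [mul_assoc]
    apply hx
    show (h * k) • x₀ = x₀
    rw [mul_smul]
    have hk' : k • x₀ = x₀ := hk
    rw [hk', hh]
  have hWo : IsOpen ((fun g : G => g • x₀) '' V) := ho V hVo
  refine ⟨(fun g : G => g • x₀) '' V, ?_, hWo, ?_⟩
  · intro x hx
    obtain ⟨g, hg⟩ := hs x
    exact ⟨g, hAV (by rw [mem_pre, hg]; exact hx), hg⟩
  · rw [map_pre μ x₀ hWo.measurableSet, pre_image hVH]
    exact (measure_mono hVV').trans_lt hVr

end

/-- **Comparison theorem for the invariant measure of a homogeneous space with compact stabilisers.** Let the locally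
compact Hausdorff group `G` act continuously and transitively on the Hausdorff space `X`; let the orbit map `g ↦ g • x₀` be
open and let the stabiliser of `x₀` be compact. Let `μ` be an outer regular left Haar measure on `G` and `ν` its image on `X`
under the orbit map.

0. `ν` is invariant under `G`, finite on compact sets, positive on nonempty open sets, and outer regular.

Let `A` and `B` be Borel subsets of `X`, and let `B` have nonempty interior (for instance, let `B` be a nonempty open set).

1. (packing of null sets) If `ν A = 0` then `A` is countably equidecomposable (with Borel pieces moved by elements of `G`)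
   with a subset of `B`.
2. (embedding) More generally, if `A` is covered by countably many Borel sets of finite measure, then `A` is countably
   equidecomposable with a subset of `B` if and only if `B` contains a Borel set `C`, covered by countably many Borel sets
   of finite measure, with `ν A ≤ ν C`.
3. (equality) If `A` has nonempty interior as well, and both sets are covered by countably many Borel sets of finite
   measure, then `A` and `B` are countably equidecomposable if and only if `ν A = ν B`. -/
theorem comparison.{u, v} :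
    ∀ (G : Type u) [Group G] [TopologicalSpace G] [IsTopologicalGroup G]
      [LocallyCompactSpace G] [T2Space G] [MeasurableSpace G] [BorelSpace G]
      (X : Type v) [TopologicalSpace X] [T2Space X] [MulAction G X] [ContinuousSMul G X]
      [MeasurableSpace X] [BorelSpace X] (x₀ : X),
      (∀ x : X, ∃ g : G, g • x₀ = x) → IsOpenMap (fun g : G => g • x₀) →
      IsCompact {h : G | h • x₀ = x₀} →
      ∀ (μ : Measure G) [μ.IsHaarMeasure] [μ.OuterRegular] (ν : Measure X),
      ν = μ.map (fun g : G => g • x₀) →
      ((∀ (g : G) (S : Set X), ν (g • S) = ν S) ∧ (∀ K : Set X, IsCompact K → ν K < ⊤) ∧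
        (∀ V : Set X, IsOpen V → V.Nonempty → 0 < ν V) ∧ ν.OuterRegular) ∧
      ∀ A B : Set X, MeasurableSet A → MeasurableSet B → (interior B).Nonempty →
      (ν A = 0 → ∃ F ⊆ B, CountablyBorelEquidecomposable G A F) ∧
      (SigmaFiniteSet ν A →
        ((∃ F ⊆ B, CountablyBorelEquidecomposable G A F) ↔
          ∃ C ⊆ B, MeasurableSet C ∧ SigmaFiniteSet ν C ∧ ν A ≤ ν C)) ∧
      (SigmaFiniteSet ν A → SigmaFiniteSet ν B → (interior A).Nonempty →
        (CountablyBorelEquidecomposable G A B ↔ ν A = ν B)) := by
  intro G _ _ _ _ _ _ _ X _ _ _ _ _ _ x₀ hs ho hst μ _ _ ν hν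
  have hreg : μ.Regular := Pool.Agent.Y274.EQM.regular_of_outer μ
  have hinv : SMulInvariantMeasure G X ν := by rw [hν]; exact invariant μ x₀
  have hgood : Good G ν := by rw [hν]; exact good μ hs ho hst
  have hfin : IsFiniteMeasureOnCompacts ν := by rw [hν]; exact finCompact μ hs ho hst
  have hlc : LocallyCompactSpace X := locCompact hs ho
  refine ⟨⟨fun g S => measure_smul ν g S, fun K hK => hK.measure_lt_top, ?_, ?_⟩, ?_⟩
  · intro V hV hVne
    rw [hν, map_pre μ x₀ hV.measurableSet]
    obtain ⟨y, hy⟩ := hVne
    obtain ⟨g, hg⟩ := hs y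
    exact (hV.preimage (orbit_cont x₀)).measure_pos μ ⟨g, by show g • x₀ ∈ V; rw [hg]; exact hy⟩
  · rw [hν]
    exact outer μ hs ho hst
  intro A B hA hB hBi
  have h1 : SigmaFiniteSet ν A →
        ((∃ F ⊆ B, CountablyBorelEquidecomposable G A F) ↔
          ∃ C ⊆ B, MeasurableSet C ∧ SigmaFiniteSet ν C ∧ ν A ≤ ν C) := by
    intro hAs
    constructor
    · rintro ⟨F, hF, hAF⟩
      refine ⟨F, hF, ?_, cbe_sigma ν hAF hAs, (cbe_measure ν hAF).le⟩
      obtain ⟨P, Q, g, h1, h2, h3, h4, h5, h6, h7⟩ := hAF
      rw [← h6]
      exact MeasurableSet.iUnion h2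
    · rintro ⟨C, hCB, hC, hCs, hAC⟩
      exact (embed ν hgood hA hAs hC hCB hCs hAC hBi).toEquidecomposable
  refine ⟨fun hE0 => ?_, h1, fun hAs hBs hAi => ⟨cbe_measure ν, fun h => ?_⟩⟩
  · refine (h1 ⟨fun _ => A, fun _ => ⟨hA, ?_⟩, ?_⟩).2 ⟨∅, empty_subset B, MeasurableSet.empty,
        ⟨fun _ => ∅, fun _ => ⟨MeasurableSet.empty, ?_⟩, empty_subset _⟩, ?_⟩
    · rw [hE0]
      exact ENNReal.zero_lt_top
    · exact subset_iUnion (fun _ : ℕ => A) 0
    · rw [measure_empty]
      exact ENNReal.zero_lt_top
    · rw [hE0]
      exact bot_le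
  · exact schroeder hA hB
      (embed ν hgood hA hAs hB Subset.rfl hBs h.le hBi)
      (embed ν hgood hB hBs hA Subset.rfl hAs h.ge hAi)

/-- **Question Q1 and the comparison theorem for homogeneous spaces with compact stabilisers.**

The first part is question Q1 (answer: yes): in a locally compact Hausdorff group `G` with an outer regular left Haar measure,
every Borel set `E` of measure zero is countably equidecomposable, by left translations and with Borel pieces, with a subset
of any given nonempty open set `U`. (Here `G` acts on itself by left translations.)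

The second part contains the first (`X = G`, `x₀ = 1`). Let the locally compact Hausdorff group `G` act continuously and
transitively on the Hausdorff space `X`; let the orbit map `g ↦ g • x₀` be open and let the stabiliser of `x₀` be compact. Let
`μ` be an outer regular left Haar measure on `G` and `ν` its image on `X` under the orbit map.

0. `ν` is invariant under `G`, finite on compact sets, positive on nonempty open sets, and outer regular.

Let `A` and `B` be Borel subsets of `X`, and let `B` have nonempty interior (for instance, let `B` be a nonempty open set).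

1. (packing of null sets) If `ν A = 0` then `A` is countably equidecomposable (with Borel pieces moved by elements of `G`)
   with a subset of `B`.
2. (embedding) More generally, if `A` is covered by countably many Borel sets of finite measure, then `A` is countably
   equidecomposable with a subset of `B` if and only if `B` contains a Borel set `C`, covered by countably many Borel sets
   of finite measure, with `ν A ≤ ν C`.
3. (equality) If `A` has nonempty interior as well, and both sets are covered by countably many Borel sets of finite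
   measure, then `A` and `B` are countably equidecomposable if and only if `ν A = ν B`. -/
theorem result.{u, v} :
    (∀ (G : Type u) [Group G] [TopologicalSpace G] [IsTopologicalGroup G]
      [LocallyCompactSpace G] [T2Space G] [MeasurableSpace G] [BorelSpace G]
      (μ : Measure G) [μ.IsHaarMeasure] [μ.OuterRegular] (E U : Set G),
      MeasurableSet E → μ E = 0 → IsOpen U → U.Nonempty →
      ∃ F ⊆ U, CountablyBorelEquidecomposable G E F) ∧
    ∀ (G : Type u) [Group G] [TopologicalSpace G] [IsTopologicalGroup G]
      [LocallyCompactSpace G] [T2Space G] [MeasurableSpace G] [BorelSpace G]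
      (X : Type v) [TopologicalSpace X] [T2Space X] [MulAction G X] [ContinuousSMul G X]
      [MeasurableSpace X] [BorelSpace X] (x₀ : X),
      (∀ x : X, ∃ g : G, g • x₀ = x) → IsOpenMap (fun g : G => g • x₀) →
      IsCompact {h : G | h • x₀ = x₀} →
      ∀ (μ : Measure G) [μ.IsHaarMeasure] [μ.OuterRegular] (ν : Measure X),
      ν = μ.map (fun g : G => g • x₀) →
      ((∀ (g : G) (S : Set X), ν (g • S) = ν S) ∧ (∀ K : Set X, IsCompact K → ν K < ⊤) ∧
        (∀ V : Set X, IsOpen V → V.Nonempty → 0 < ν V) ∧ ν.OuterRegular) ∧
      ∀ A B : Set X, MeasurableSet A → MeasurableSet B → (interior B).Nonempty →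
      (ν A = 0 → ∃ F ⊆ B, CountablyBorelEquidecomposable G A F) ∧
      (SigmaFiniteSet ν A →
        ((∃ F ⊆ B, CountablyBorelEquidecomposable G A F) ↔
          ∃ C ⊆ B, MeasurableSet C ∧ SigmaFiniteSet ν C ∧ ν A ≤ ν C)) ∧
      (SigmaFiniteSet ν A → SigmaFiniteSet ν B → (interior A).Nonempty →
        (CountablyBorelEquidecomposable G A B ↔ ν A = ν B)) := by
  refine ⟨?_, comparison⟩
  intro G _ _ _ _ _ _ _ μ _ _ E U hE hE0 hUo hUne
  have hid : (fun g : G => g • (1 : G)) = id := by
    funext g
    simp
  have h := comparison G G (1 : G) (fun x => ⟨x, by simp⟩) (by rw [hid]; exact IsOpenMap.id) (by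
    have : {h : G | h • (1 : G) = 1} = {1} := by
      ext h
      simp
    rw [this]
    exact isCompact_singleton) μ μ (by rw [hid, Measure.map_id])
  exact (h.2 E U hE hUo.measurableSet (by rw [hUo.interior_eq]; exact hUne)).1 hE0

end Pool.Agent.Results.MP_5eb27c_an.HomogeneousSpaces
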